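import Pool.Agent.Helper80.HG.St

/-!
Project HG (MP_1bacb5_al), module PC: conjugates of positive elements.
-/

set_option autoImplicit false

namespace Pool.Agent.Helper11.HG

open Pool.Agent.Helper80.HG Filter Topology Asymptotics
open scoped commutatorElement

theorem hPC : StPC := by
  intro H _ Γ _ θ hSB g x L hx
  have hpos : Pos θ x := by
    filter_upwards [hx.2.2] with z hz
    have h1 : θ x z - z = Real.exp (-L z) := hz
    have h2 := Real.exp_pos (-L z)
    linarith
  obtain ⟨L1, hL1⟩ := hSB.ps (g * x * g⁻¹) (hSB.pconj g x hpos)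
  refine ⟨L1, hL1, ?_⟩
  have h1 : ∀ᶠ z in atTop, dsp θ (g * x * g⁻¹) (θ g z) = Real.exp (-L1 (θ g z)) :=
    (hSB.top g).eventually hL1.2.2
  have h2 := (hSB.conj g x).tendsto_div_nhds_zero
  have h3 : Tendsto (fun z => Real.exp (L z - L1 (θ g z)) - 1) atTop (𝓝 0) := by
    refine h2.congr' ?_
    filter_upwards [h1, hx.2.2] with z hz1 hz2
    rw [hz1, hz2, sub_div, div_self (Real.exp_ne_zero _), ← Real.exp_sub]
    congr 2
    ring
  have h4 : Tendsto (fun z => Real.exp (L z - L1 (θ g z))) atTop (𝓝 1) := by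
    have := h3.add_const 1
    simpa using this
  have h5 := h4.log one_ne_zero
  rw [Real.log_one] at h5
  have h6 := h5.neg
  rw [neg_zero] at h6
  refine h6.congr fun z => ?_
  rw [Real.log_exp]
  ring

end Pool.Agent.Helper11.HG
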